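import Pool.Agent.Q25.PLP.Stm

/-!
# Project PLP (helper25): the combinatorial lemma C1
-/

set_option autoImplicit false

open Finset Pool.Agent.Helper123.PLP Pool.Agent.Q25.PLP

namespace Pool.Agent.Q150.PLPC1

variable {P : Type} [DecidableEq P] {V : Finset P} {L : Finset (Finset P)}

theorem mem_thr {z : P} {l : Finset P} : l ∈ thr L z ↔ l ∈ L ∧ z ∈ l := by
  simp [thr]

theorem sum_thr (h : IsLS V L) (f : P → ℝ) {y : P} (hy : y ∈ V) :
    ∑ l ∈ thr L y, ∑ z ∈ l, f z = ∑ z ∈ V, f z + (((thr L y).card : ℝ) - 1) * f y := by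
  have h1 : V.erase y = (thr L y).biUnion (fun l => l.erase y) := by
    ext x
    simp only [mem_erase, mem_biUnion, mem_thr]
    constructor
    · rintro ⟨hx, hxV⟩
      obtain ⟨l, hl, hyl, hxl⟩ := h.ex y hy x hxV (Ne.symm hx)
      exact ⟨l, ⟨hl, hyl⟩, hx, hxl⟩
    · rintro ⟨l, ⟨hl, hyl⟩, hx, hxl⟩
      exact ⟨hx, h.sub l hl hxl⟩
  have h2 : ∑ z ∈ V.erase y, f z = ∑ l ∈ thr L y, ∑ z ∈ l.erase y, f z := by
    rw [h1]
    apply sum_biUnion
    intro l hl l' hl' hne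
    simp only [mem_coe, mem_thr] at hl hl'
    change Disjoint (l.erase y) (l'.erase y)
    rw [Finset.disjoint_left]
    intro x hx hx'
    simp only [mem_erase] at hx hx'
    exact hne (h.uniq l hl.1 l' hl'.1 x y hx.1 hx.2 hl.2 hx'.2 hl'.2)
  have h3 : ∀ l ∈ thr L y, ∑ z ∈ l, f z = f y + ∑ z ∈ l.erase y, f z := by
    intro l hl
    rw [mem_thr] at hl
    exact (add_sum_erase l f hl.2).symm
  rw [sum_congr rfl h3, sum_add_distrib, sum_const, nsmul_eq_mul, ← h2, ← add_sum_erase V f hy]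
  ring

theorem two_le_thr (h : IsLS V L) {z : P} (hz : z ∈ V) : 2 ≤ (thr L z).card := by
  obtain ⟨l0, hl0⟩ := h.ne
  have key : ∀ l ∈ L, ∀ l' ∈ L, l ≠ l' → z ∈ l → z ∈ l' → 2 ≤ (thr L z).card := by
    intro l hl l' hl' hne hzl hzl'
    have : 1 < (thr L z).card :=
      Finset.one_lt_card.2 ⟨l, mem_thr.2 ⟨hl, hzl⟩, l', mem_thr.2 ⟨hl', hzl'⟩, hne⟩
    omega
  by_cases hz0 : z ∈ l0
  · obtain ⟨w, hw, hwl⟩ := h.ncol l0 hl0
    have hzw : z ≠ w := fun e => hwl (e ▸ hz0)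
    obtain ⟨l, hl, hzl, hwl'⟩ := h.ex z hz w hw hzw
    exact key l hl l0 hl0 (fun e => hwl (e ▸ hwl')) hzl hz0
  · have h2 := h.two_le l0 hl0
    obtain ⟨a, ha, b, hb, hab⟩ := Finset.one_lt_card.1 (show 1 < l0.card by omega)
    have hza : z ≠ a := fun e => hz0 (e ▸ ha)
    have hzb : z ≠ b := fun e => hz0 (e ▸ hb)
    obtain ⟨la, hla, hzla, hala⟩ := h.ex z hz a (h.sub l0 hl0 ha) hza
    obtain ⟨lb, hlb, hzlb, hblb⟩ := h.ex z hz b (h.sub l0 hl0 hb) hzb
    refine key la hla lb hlb (fun e => ?_) hzla hzlb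
    have : la = l0 := h.uniq la hla l0 hl0 a b hab hala (e ▸ hblb) ha hb
    exact hz0 (this ▸ hzla)

/-- a point off `M'` is on at least `|M'|` lines -/
theorem card_le_thr (h : IsLS V L) {z : P} (hz : z ∈ V) {M : Finset P} (hM : M ∈ L) (hzM : z ∉ M) :
    M.card ≤ (thr L z).card := by
  have hne : ∀ w ∈ M, z ≠ w := fun w hw e => hzM (e ▸ hw)
  choose! f hf using fun w (hw : w ∈ M) => h.ex z hz w (h.sub M hM hw) (hne w hw)
  refine Finset.card_le_card_of_injOn f (fun w hw => ?_) ?_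
  · have := hf w (by simpa using hw)
    simp only [mem_coe, mem_thr]
    exact ⟨this.1, this.2.1⟩
  · intro w hw w' hw' hff
    by_contra hww
    simp only [mem_coe] at hw hw'
    have h1 := hf w hw
    have h2 := hf w' hw'
    have h3 : f w = M := h.uniq (f w) h1.1 M hM w w' hww h1.2.2 (hff ▸ h2.2.2) hw hw'
    exact hzM (h3 ▸ h1.2.1)

/-- the linear system -/
theorem exists_v {x : P} {S : Finset P} (hS : (mis L x S).card < S.card) :
    ∃ v : P → ℝ, (∀ z, z ∉ S → v z = 0) ∧ (∃ z ∈ S, v z ≠ 0) ∧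
      ∀ l ∈ L, x ∉ l → ∑ z ∈ l, v z = 0 := by
  classical
  obtain ⟨A, hA⟩ : ∃ A : Matrix (mis L x S) S ℝ,
    A = Matrix.of (fun (l : mis L x S) (z : S) => if (z : P) ∈ (l : Finset P) then (1 : ℝ) else 0) :=
    ⟨_, rfl⟩
  have hfr : Module.finrank ℝ ((mis L x S) → ℝ) < Module.finrank ℝ (S → ℝ) := by
    rw [Module.finrank_fintype_fun_eq_card, Module.finrank_fintype_fun_eq_card, Fintype.card_coe,
      Fintype.card_coe]
    exact hS
  have hk := LinearMap.ker_ne_bot_of_finrank_lt (f := A.mulVecLin) hfr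
  obtain ⟨w, hw, hw0⟩ := (Submodule.ne_bot_iff _).1 hk
  rw [LinearMap.mem_ker, Matrix.mulVecLin_apply] at hw
  refine ⟨fun z => if hz : z ∈ S then w ⟨z, hz⟩ else 0, fun z hz => by simp [hz], ?_, ?_⟩
  · obtain ⟨z, hz⟩ := Function.ne_iff.1 hw0
    refine ⟨z, z.2, ?_⟩
    simpa using hz
  · intro l hl hxl
    have h1 : ∑ z ∈ l, (if hz : z ∈ S then w ⟨z, hz⟩ else 0) =
        ∑ z : S, if (z : P) ∈ l then w z else 0 := by
      have h2 : ∑ z ∈ l, (if hz : z ∈ S then w ⟨z, hz⟩ else 0) =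
          ∑ z ∈ S, if z ∈ l then (if hz : z ∈ S then w ⟨z, hz⟩ else 0) else 0 := by
        rw [← Finset.sum_filter]
        symm
        apply Finset.sum_subset
        · intro z hz
          exact (mem_filter.1 hz).2
        · intro z hz hz'
          rw [dif_neg]
          intro hzS
          exact hz' (mem_filter.2 ⟨hzS, hz⟩)
      rw [h2, ← Finset.sum_coe_sort S]
      apply Finset.sum_congr rfl
      intro z _
      simp
    rw [h1]
    by_cases hlS : (l ∩ S).Nonempty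
    · have h3 := congrFun hw ⟨l, by simp [mis, hl, hxl, hlS]⟩
      simp only [hA, Matrix.mulVec, dotProduct, Matrix.of_apply, ite_mul, one_mul, zero_mul,
        Pi.zero_apply] at h3
      exact h3
    · apply Finset.sum_eq_zero
      intro z _
      rw [if_neg]
      intro hz
      exact hlS ⟨z, mem_inter.2 ⟨hz, z.2⟩⟩

theorem t_C1 : S_C1 := by
  intro P _ V L h x hx S hSV hxS y hy hyS hyx
  by_contra hcon
  push Not at hcon
  obtain ⟨hlt, hno⟩ := hcon
  obtain ⟨v, hv0, ⟨z0, hz0S, hz0⟩, hvl⟩ := exists_v hlt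
  have hvx : v x = 0 := hv0 x hxS
  obtain ⟨V0, hV0⟩ : ∃ V0 : ℝ, V0 = ∑ z ∈ V, v z := ⟨_, rfl⟩
  -- the identity
  have key : ∀ z ∈ V, z ≠ x → ∀ M ∈ L, x ∈ M → z ∈ M →
      V0 + (((thr L z).card : ℝ) - 1) * v z = ∑ w ∈ M, v w := by
    intro z hz hzx M hM hxM hzM
    rw [hV0, ← sum_thr h v hz]
    rw [Finset.sum_eq_single M]
    · intro l hl hlM
      rw [mem_thr] at hl
      apply hvl l hl.1
      intro hxl
      exact hlM (h.uniq l hl.1 M hM z x hzx hl.2 hxl hzM hxM)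
    · intro hM'
      exact absurd (mem_thr.2 ⟨hM, hzM⟩) hM'
  have hr : ∀ z ∈ V, (1 : ℝ) ≤ ((thr L z).card : ℝ) - 1 := by
    intro z hz
    have : (2 : ℝ) ≤ ((thr L z).card : ℝ) := by exact_mod_cast two_le_thr h hz
    linarith
  -- `V0 = 0`
  have hV00 : V0 = 0 := by
    obtain ⟨M, hM, hxM, hyM⟩ := h.ex x hx y hy hyx.symm
    have h1 := key y hy hyx M hM hxM hyM
    rw [hv0 y hyS, mul_zero, add_zero] at h1
    rw [h1]
    apply Finset.sum_eq_zero
    intro z hz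
    by_cases hzS : z ∈ S
    · have hzx : z ≠ x := fun e => hxS (e ▸ hzS)
      have h2 := key z (hSV hzS) hzx M hM hxM hz
      rw [← h1] at h2
      have h3 := hr z (hSV hzS)
      have h4 : (((thr L z).card : ℝ) - 1) * v z = 0 := by linarith
      rcases mul_eq_zero.1 h4 with h5 | h5
      · linarith
      · exact h5
    · exact hv0 z hzS
  rw [hV00] at key
  simp only [zero_add] at key
  -- two lines
  have hz0V : z0 ∈ V := hSV hz0S
  have hz0x : z0 ≠ x := fun e => hxS (e ▸ hz0S)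
  obtain ⟨M, hM, hxM, hz0M⟩ := h.ex x hx z0 hz0V hz0x.symm
  have hsM : ∑ w ∈ M, v w ≠ 0 := by
    rw [← key z0 hz0V hz0x M hM hxM hz0M]
    have := hr z0 hz0V
    exact mul_ne_zero (by linarith) hz0
  have htot : ∑ l ∈ thr L x, ∑ z ∈ l, v z = 0 := by
    rw [sum_thr h v hx, ← hV0, hV00, hvx]
    ring
  obtain ⟨M', hM', hMM', hsM'⟩ : ∃ M' ∈ thr L x, M' ≠ M ∧ ∑ z ∈ M', v z ≠ 0 := by
    by_contra hc
    push Not at hc
    rw [Finset.sum_eq_single M (fun l hl hne => hc l hl hne)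
      (fun hM'' => absurd (mem_thr.2 ⟨hM, hxM⟩) hM'')] at htot
    exact hsM htot
  rw [mem_thr] at hM'
  -- the properties of such lines
  have hsub : ∀ M ∈ L, x ∈ M → ∑ w ∈ M, v w ≠ 0 → M.erase x ⊆ S := by
    intro M hM hxM hs z hz
    rw [mem_erase] at hz
    by_contra hzS
    have h1 := key z (h.sub M hM hz.2) hz.1 M hM hxM hz.2
    rw [hv0 z hzS, mul_zero] at h1
    exact hs h1.symm
  have hsig : ∀ M ∈ L, x ∈ M → ∑ w ∈ M, v w ≠ 0 →
      ∑ z ∈ M.erase x, 1 / (((thr L z).card : ℝ) - 1) = 1 := by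
    intro M hM hxM hs
    have h1 : ∑ w ∈ M, v w = ∑ z ∈ M.erase x, v z := by
      rw [← add_sum_erase M v hxM, hvx, zero_add]
    have h2 : ∑ z ∈ M.erase x, v z =
        (∑ w ∈ M, v w) * ∑ z ∈ M.erase x, 1 / (((thr L z).card : ℝ) - 1) := by
      rw [mul_sum]
      apply Finset.sum_congr rfl
      intro z hz
      rw [mem_erase] at hz
      have hzV := h.sub M hM hz.2
      have h3 := key z hzV hz.1 M hM hxM hz.2
      have h4 := hr z hzV
      have h5 : (((thr L z).card : ℝ) - 1) ≠ 0 := by linarith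
      rw [← h3]
      field_simp
    rw [← h1] at h2
    have h3 : (∑ w ∈ M, v w) * ((∑ z ∈ M.erase x, 1 / (((thr L z).card : ℝ) - 1)) - 1) = 0 := by
      linarith
    rcases mul_eq_zero.1 h3 with h4 | h4
    · exact absurd h4 hs
    · linarith
  have hge : ∀ M ∈ L, x ∈ M → ∀ M' ∈ L, x ∈ M' → M' ≠ M → ∀ z ∈ M.erase x,
      M'.card ≤ (thr L z).card := by
    intro M hM hxM M' hM' hxM' hne z hz
    rw [mem_erase] at hz
    apply card_le_thr h (h.sub M hM hz.2) hM'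
    intro hzM'
    exact hne (h.uniq M' hM' M hM z x hz.1 hzM' hxM' hz.2 hxM)
  have hcle : ∀ M ∈ L, x ∈ M → ∑ w ∈ M, v w ≠ 0 → ∀ M' ∈ L, x ∈ M' → M' ≠ M →
      M'.card ≤ M.card := by
    intro M hM hxM hs M' hM' hxM' hne
    have h1 := hsig M hM hxM hs
    have h2 : (2 : ℝ) ≤ (M'.card : ℝ) := by exact_mod_cast h.two_le M' hM'
    have h3 : ∑ z ∈ M.erase x, 1 / (((thr L z).card : ℝ) - 1) ≤
        ∑ z ∈ M.erase x, 1 / ((M'.card : ℝ) - 1) := by
      apply Finset.sum_le_sum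
      intro z hz
      have h4 : (M'.card : ℝ) ≤ ((thr L z).card : ℝ) := by
        exact_mod_cast hge M hM hxM M' hM' hxM' hne z hz
      apply one_div_le_one_div_of_le (by linarith)
      linarith
    rw [h1, sum_const, nsmul_eq_mul, card_erase_of_mem hxM, mul_one_div,
      le_div_iff₀ (by linarith), one_mul] at h3
    have h5 : ((M.card - 1 : ℕ) : ℝ) = (M.card : ℝ) - 1 := by
      rw [Nat.cast_sub (Finset.card_pos.2 ⟨x, hxM⟩)]
      simp
    rw [h5] at h3
    have : (M'.card : ℝ) ≤ (M.card : ℝ) := by linarith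
    exact_mod_cast this
  have hcc : M.card = M'.card :=
    le_antisymm (hcle M' hM'.1 hM'.2 hsM' M hM hxM hMM'.symm) (hcle M hM hxM hsM M' hM'.1 hM'.2 hMM')
  obtain ⟨z1, hz1, hz1c⟩ := hno M hM hxM (hsub M hM hxM hsM)
  apply hz1c
  -- equality
  have h2 : (2 : ℝ) ≤ (M.card : ℝ) := by exact_mod_cast h.two_le M hM
  have h5 : ((M.card - 1 : ℕ) : ℝ) = (M.card : ℝ) - 1 := by
    rw [Nat.cast_sub (Finset.card_pos.2 ⟨x, hxM⟩)]
    simp
  have hnn : ∀ z ∈ M.erase x, 0 ≤ 1 / ((M.card : ℝ) - 1) - 1 / (((thr L z).card : ℝ) - 1) := by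
    intro z hz
    have h4 : (M.card : ℝ) ≤ ((thr L z).card : ℝ) := by
      have := hge M hM hxM M' hM'.1 hM'.2 hMM' z hz
      rw [← hcc] at this
      exact_mod_cast this
    have := one_div_le_one_div_of_le (show (0 : ℝ) < (M.card : ℝ) - 1 by linarith)
      (show (M.card : ℝ) - 1 ≤ ((thr L z).card : ℝ) - 1 by linarith)
    linarith
  have hz : ∑ z ∈ M.erase x, (1 / ((M.card : ℝ) - 1) - 1 / (((thr L z).card : ℝ) - 1)) = 0 := by
    rw [sum_sub_distrib, hsig M hM hxM hsM, sum_const, nsmul_eq_mul, card_erase_of_mem hxM, h5,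
      mul_one_div, div_self (by linarith), sub_self]
  have h6 := (Finset.sum_eq_zero_iff_of_nonneg hnn).1 hz z1 hz1
  have h7 := hge M hM hxM M' hM'.1 hM'.2 hMM' z1 hz1
  rw [← hcc] at h7
  have h8 : (M.card : ℝ) ≤ ((thr L z1).card : ℝ) := by exact_mod_cast h7
  have h9 : 1 / ((M.card : ℝ) - 1) = 1 / (((thr L z1).card : ℝ) - 1) := by linarith
  rw [one_div, one_div, inv_inj] at h9
  have h10 : ((thr L z1).card : ℝ) = (M.card : ℝ) := by linarith
  exact_mod_cast h10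

end Pool.Agent.Q150.PLPC1
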