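import Pool.Agent.Q25.PLP.Stm

/-!
# Project PLP (helper25): the switching argument
-/

set_option autoImplicit false
set_option linter.unusedSectionVars false
set_option linter.unusedVariables false

open Finset Pool.Agent.Helper123.PLP Pool.Agent.Q25.PLP

namespace Pool.Agent.Q150.PLPSW

/-- a map without fixed points and without orbits of length two -/
theorem cyc {ι : Type} [Fintype ι] [Nonempty ι] (σ : ι → ι) (h1 : ∀ i, σ i ≠ i)
    (h2 : ∀ i, σ (σ i) ≠ i) (a : ι → ℝ) (ha : ∀ i, 0 < a i) : 3 ≤ ∑ i, a (σ i) / a i := by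
  classical
  obtain ⟨C, hC⟩ : ∃ C : Finset ι, C = univ.filter (fun i => i ∈ Function.periodicPts σ) := ⟨_, rfl⟩
  have hmC : ∀ i, i ∈ C ↔ i ∈ Function.periodicPts σ := by
    intro i
    rw [hC, mem_filter]
    simp
  have hbij := Function.bijOn_periodicPts σ
  -- a periodic point
  obtain ⟨j, hj⟩ : ∃ j, j ∈ C := by
    obtain ⟨i0⟩ := ‹Nonempty ι›
    obtain ⟨a, b, hab, hf⟩ := Finite.exists_ne_map_eq_of_infinite (fun n : ℕ => σ^[n] i0)
    have key : ∀ a b : ℕ, a < b → σ^[a] i0 = σ^[b] i0 → ∃ j, j ∈ C := by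
      intro a b hlt he
      refine ⟨σ^[a] i0, ?_⟩
      rw [hmC]
      refine ⟨b - a, by omega, ?_⟩
      unfold Function.IsPeriodicPt Function.IsFixedPt
      rw [← Function.iterate_add_apply, show b - a + a = b by omega]
      exact he.symm
    rcases lt_or_gt_of_ne hab with hlt | hgt
    · exact key a b hlt hf
    · exact key b a hgt hf.symm
  have hmaps : ∀ i ∈ C, σ i ∈ C := by
    intro i hi
    rw [hmC] at hi ⊢
    exact hbij.mapsTo hi
  have h3 : 3 ≤ C.card := by
    have hsub : ({j, σ j, σ (σ j)} : Finset ι) ⊆ C := by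
      intro i hi
      simp only [mem_insert, mem_singleton] at hi
      rcases hi with rfl | rfl | rfl
      · exact hj
      · exact hmaps _ hj
      · exact hmaps _ (hmaps _ hj)
    have hcard : ({j, σ j, σ (σ j)} : Finset ι).card = 3 := by
      rw [Finset.card_eq_three]
      exact ⟨j, σ j, σ (σ j), (h1 j).symm, (h2 j).symm, (h1 (σ j)).symm, rfl⟩
    rw [← hcard]
    exact card_le_card hsub
  have hlog : ∑ i ∈ C, Real.log (a (σ i)) = ∑ i ∈ C, Real.log (a i) := by
    apply Finset.sum_bij (fun i _ => σ i)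
    · exact fun i hi => hmaps i hi
    · intro i hi i' hi' he
      exact hbij.injOn ((hmC i).1 hi) ((hmC i').1 hi') he
    · intro i hi
      obtain ⟨i', hi', he⟩ := hbij.surjOn ((hmC i).1 hi)
      exact ⟨i', (hmC i').2 hi', he⟩
    · exact fun _ _ => rfl
  calc (3 : ℝ) ≤ (C.card : ℝ) := by exact_mod_cast h3
    _ = ∑ i ∈ C, (1 + (Real.log (a (σ i)) - Real.log (a i))) := by
        rw [sum_add_distrib, sum_sub_distrib, hlog]
        simp
    _ ≤ ∑ i ∈ C, a (σ i) / a i := by
        apply Finset.sum_le_sum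
        intro i _
        rw [← Real.log_div (ha _).ne' (ha _).ne']
        have := Real.log_le_sub_one_of_pos (div_pos (ha (σ i)) (ha i))
        linarith
    _ ≤ ∑ i, a (σ i) / a i := by
        apply Finset.sum_le_sum_of_subset_of_nonneg (subset_univ C)
        intro i _ _
        exact (div_pos (ha _) (ha _)).le

section

variable {ι P : Type} [Fintype ι] [DecidableEq ι] [Nonempty ι] [Fintype P] [DecidableEq P]
  {V : Finset P} {T : ι → Finset P}

/-- an injective choice is onto -/
theorem onto (hc : Fintype.card ι = V.card) (hTV : ∀ i, T i ⊆ V) {X : ι → P}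
    (hX : X ∈ Fintype.piFinset T) (hi : Function.Injective X) : ∀ y ∈ V, ∃ i, X i = y := by
  have h1 : univ.image X ⊆ V := by
    intro y hy
    obtain ⟨i, _, rfl⟩ := mem_image.1 hy
    exact hTV i (Fintype.mem_piFinset.1 hX i)
  have h2 : univ.image X = V := by
    apply Finset.eq_of_subset_of_card_le h1
    rw [card_image_of_injective _ hi, card_univ, hc]
  intro y hy
  rw [← h2] at hy
  obtain ⟨i, _, he⟩ := mem_image.1 hy
  exact ⟨i, he⟩

/-- the sum over the switches of an injective choice -/
theorem three_le (hc : Fintype.card ι = V.card) (hTV : ∀ i, T i ⊆ V) (hT2 : ∀ i, 2 ≤ (T i).card)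
    (hTT : ∀ i j, i ≠ j → (T i ∩ T j).card ≤ 1) {h : P → ℝ} (hh : ∀ x, 0 < h x) {X : ι → P}
    (hX : X ∈ Fintype.piFinset T) (hi : Function.Injective X) :
    3 ≤ ∑ i, ∑ y ∈ (T i).erase (X i), h y / h (X i) := by
  have hXT := Fintype.mem_piFinset.1 hX
  have h1 : ∀ i, ∃ j, X j ∈ T i ∧ X j ≠ X i := by
    intro i
    obtain ⟨y, hy, hne⟩ := Finset.exists_mem_ne (show 1 < (T i).card by have := hT2 i; omega) (X i)
    obtain ⟨j, rfl⟩ := onto hc hTV hX hi y (hTV i hy)
    exact ⟨j, hy, hne⟩
  choose σ hσ1 hσ2 using h1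
  have h3 := cyc σ (fun i e => hσ2 i (by rw [e])) (fun i e => by
    have hne : i ≠ σ i := fun e' => hσ2 i (by rw [← e'])
    have h4 : ({X i, X (σ i)} : Finset P) ⊆ T i ∩ T (σ i) := by
      intro y hy
      simp only [mem_insert, mem_singleton] at hy
      rcases hy with rfl | rfl
      · refine mem_inter.2 ⟨hXT i, ?_⟩
        have := hσ1 (σ i)
        rwa [e] at this
      · exact mem_inter.2 ⟨hσ1 i, hXT (σ i)⟩
    have h5 := card_le_card h4
    rw [card_pair (hσ2 i).symm] at h5
    have := hTT i (σ i) hne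
    omega) (fun i => h (X i)) (fun i => hh _)
  refine h3.trans ?_
  apply Finset.sum_le_sum
  intro i _
  exact Finset.single_le_sum (f := fun y => h y / h (X i))
    (fun y _ => (div_pos (hh y) (hh (X i))).le) (mem_erase.2 ⟨hσ2 i, hσ1 i⟩)

/-- the weight of a switched choice -/
theorem weight_update (h : P → ℝ) (hh : ∀ x, 0 < h x) (X : ι → P) (i : ι) (y : P) :
    ∏ j, h (Function.update X i y j) = (∏ j, h (X j)) * (h y / h (X i)) := by
  have e1 : ∀ j, h (Function.update X i y j) = Function.update (fun j => h (X j)) i (h y) j := by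
    intro j
    by_cases hj : j = i
    · subst hj; simp
    · simp [hj]
  rw [Finset.prod_congr rfl (fun j _ => e1 j), Finset.prod_update_of_mem (mem_univ i),
    ← Finset.mul_prod_erase univ (fun j => h (X j)) (mem_univ i), Finset.sdiff_singleton_eq_erase]
  have := (hh (X i)).ne'
  field_simp

/-- the switched choices determine the triple -/
theorem switch_inj (hc : Fintype.card ι = V.card) (hTV : ∀ i, T i ⊆ V)
    (hTT : ∀ i j, i ≠ j → (T i ∩ T j).card ≤ 1) {X Z : ι → P}
    (hX : X ∈ Fintype.piFinset T) (hXi : Function.Injective X)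
    (hZ : Z ∈ Fintype.piFinset T) (hZi : Function.Injective Z) {i j : ι} {y w : P}
    (hy : y ∈ T i) (hyX : y ≠ X i) (hw : w ∈ T j) (hwZ : w ≠ Z j)
    (he : Function.update X i y = Function.update Z j w) : X = Z ∧ i = j ∧ y = w := by
  have hXT := Fintype.mem_piFinset.1 hX
  have hZT := Fintype.mem_piFinset.1 hZ
  have e : ∀ l, Function.update X i y l = Function.update Z j w l := fun l => by rw [he]
  -- the other index of value `y`
  obtain ⟨i0, hi0⟩ := onto hc hTV hX hXi y (hTV i hy)
  have hi0i : i0 ≠ i := fun e' => hyX (by rw [← hi0, e'])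
  -- the missed point
  have hmiss : ∀ l, Function.update X i y l ≠ X i := by
    intro l hl
    by_cases hli : l = i
    · subst hli
      simp at hl
      exact hyX hl
    · rw [Function.update_of_ne hli] at hl
      exact hli (hXi hl)
  have hXZ : X i = Z j := by
    obtain ⟨l, hl⟩ := onto hc hTV hZ hZi (X i) (hTV i (hXT i))
    by_cases hlj : l = j
    · rw [← hl, hlj]
    · exfalso
      apply hmiss l
      rw [e l, Function.update_of_ne hlj, hl]
  by_cases hij : j = i
  · subst hij
    have hyw : y = w := by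
      have := e j
      simpa using this
    refine ⟨?_, rfl, hyw⟩
    funext l
    by_cases hl : l = j
    · rw [hl]; exact hXZ
    · have := e l
      rwa [Function.update_of_ne hl, Function.update_of_ne hl] at this
  · exfalso
    -- `Z i = y`
    have hZi' : Z i = y := by
      have := e i
      rw [Function.update_self, Function.update_of_ne (Ne.symm hij)] at this
      exact this.symm
    by_cases hj0 : j = i0
    · subst hj0
      have h1 : ({X i, y} : Finset P) ⊆ T i ∩ T j := by
        intro z hz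
        simp only [mem_insert, mem_singleton] at hz
        rcases hz with rfl | rfl
        · exact mem_inter.2 ⟨hXT i, hXZ ▸ hZT j⟩
        · exact mem_inter.2 ⟨hy, hi0 ▸ hXT j⟩
      have h2 := card_le_card h1
      rw [card_pair hyX.symm] at h2
      have := hTT i j (Ne.symm hij)
      omega
    · have hZi0 : Z i0 = y := by
        have := e i0
        rw [Function.update_of_ne hi0i, Function.update_of_ne (Ne.symm hj0), hi0] at this
        exact this.symm
      exact hi0i (hZi (hZi0.trans hZi'.symm))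

end

theorem t_SW : S_SW := by
  classical
  intro ι P _ _ _ _ _ V T h hh hc hTV hT2 hTT
  obtain ⟨I, hI⟩ : ∃ I : Finset (ι → P), I = (Fintype.piFinset T).filter
    (fun X => Function.Injective X) := ⟨_, rfl⟩
  obtain ⟨J, hJ⟩ : ∃ J : Finset (ι → P), J = (Fintype.piFinset T).filter
    (fun X => ¬ Function.Injective X) := ⟨_, rfl⟩
  have hsplit : ∑ X ∈ Fintype.piFinset T, ∏ i, h (X i) =
      ∑ X ∈ I, ∏ i, h (X i) + ∑ X ∈ J, ∏ i, h (X i) := by
    rw [hI, hJ]
    exact (Finset.sum_filter_add_sum_filter_not _ _ _).symm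
  have hmI : ∀ X, X ∈ I ↔ X ∈ Fintype.piFinset T ∧ Function.Injective X := by
    intro X
    rw [hI, mem_filter]
  have hmJ : ∀ X, X ∈ J ↔ X ∈ Fintype.piFinset T ∧ ¬ Function.Injective X := by
    intro X
    rw [hJ, mem_filter]
  have hmain : 3 * ∑ X ∈ I, ∏ i, h (X i) ≤ ∑ X ∈ J, ∏ i, h (X i) := by
    obtain ⟨A, hA⟩ : ∃ A : Finset (Σ _ : ι → P, Σ _ : ι, P),
      A = I.sigma (fun X => univ.sigma (fun i => (T i).erase (X i))) := ⟨_, rfl⟩
    have hmA : ∀ t, t ∈ A ↔ t.1 ∈ I ∧ t.2.2 ∈ T t.2.1 ∧ t.2.2 ≠ t.1 t.2.1 := by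
      intro t
      rw [hA, mem_sigma, mem_sigma, mem_erase]
      simp only [mem_univ, true_and]
      tauto
    have h1 : ∑ t ∈ A, ∏ j, h (Function.update t.1 t.2.1 t.2.2 j) ≤ ∑ X ∈ J, ∏ i, h (X i) := by
      have h2 : ∑ t ∈ A, ∏ j, h (Function.update t.1 t.2.1 t.2.2 j) =
          ∑ X ∈ A.image (fun t => Function.update t.1 t.2.1 t.2.2), ∏ j, h (X j) := by
        rw [Finset.sum_image]
        rintro ⟨X, i, y⟩ ht ⟨Z, j, w⟩ ht' he
        rw [mem_coe, hmA] at ht ht'
        simp only at ht ht' he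
        obtain ⟨e1, e2, e3⟩ := switch_inj hc hTV hTT ((hmI X).1 ht.1).1 ((hmI X).1 ht.1).2
          ((hmI Z).1 ht'.1).1 ((hmI Z).1 ht'.1).2 ht.2.1 ht.2.2 ht'.2.1 ht'.2.2 he
        subst e1 e2 e3
        rfl
      rw [h2]
      apply Finset.sum_le_sum_of_subset_of_nonneg
      · intro X' hX'
        obtain ⟨⟨X, i, y⟩, ht, rfl⟩ := mem_image.1 hX'
        rw [hmA] at ht
        simp only at ht ⊢
        obtain ⟨hXI, hyT, hyX⟩ := ht
        rw [hmI] at hXI
        have hXT := Fintype.mem_piFinset.1 hXI.1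
        rw [hmJ]
        refine ⟨?_, ?_⟩
        · rw [Fintype.mem_piFinset]
          intro l
          by_cases hl : l = i
          · subst hl; simpa using hyT
          · rw [Function.update_of_ne hl]; exact hXT l
        · intro hinj
          obtain ⟨i0, hi0⟩ := onto hc hTV hXI.1 hXI.2 y (hTV i hyT)
          have hi0i : i0 ≠ i := fun e' => hyX (by rw [← hi0, e'])
          apply hi0i
          apply hinj
          rw [Function.update_of_ne hi0i, Function.update_self, hi0]
      · intro X _ _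
        exact Finset.prod_nonneg (fun i _ => (hh _).le)
    refine le_trans ?_ h1
    rw [hA, Finset.sum_sigma, mul_sum]
    apply Finset.sum_le_sum
    intro X hX
    rw [hmI] at hX
    rw [Finset.sum_sigma]
    simp only
    have h3 := three_le hc hTV hT2 hTT hh hX.1 hX.2
    have h4 : ∑ i, ∑ y ∈ (T i).erase (X i), ∏ j, h (Function.update X i y j) =
        (∏ j, h (X j)) * ∑ i, ∑ y ∈ (T i).erase (X i), h y / h (X i) := by
      rw [mul_sum]
      apply Finset.sum_congr rfl
      intro i _
      rw [mul_sum]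
      apply Finset.sum_congr rfl
      intro y _
      exact weight_update h hh X i y
    rw [h4, mul_comm]
    exact mul_le_mul_of_nonneg_left h3 (Finset.prod_nonneg (fun i _ => (hh _).le))
  rw [hsplit]
  have hfin : 4 * ∑ X ∈ I, ∏ i, h (X i) ≤ ∑ X ∈ I, ∏ i, h (X i) + ∑ X ∈ J, ∏ i, h (X i) := by
    linarith
  rw [hI] at hfin ⊢
  exact hfin

end Pool.Agent.Q150.PLPSW
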